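import Mathlib
import Pool.Agent.W560.EW.Stm

/-! S_POW of project EW (MP_3f3e0f_an, MP_f91407_an). -/

set_option autoImplicit false

namespace Pool.Agent.W717.EW.POW

/-- A monotone additive function is linear. -/
theorem additive_mono (A : ℝ → ℝ) (hadd : ∀ x y, A (x + y) = A x + A y)
    (hmono : ∀ x y, x ≤ y → A x ≤ A y) (x : ℝ) : A x = A 1 * x := by
  let f : ℝ →+ ℝ := AddMonoidHom.mk' A hadd
  have hf : ∀ x, f x = A x := fun x => rfl
  have h0 : A 0 = 0 := by rw [← hf]; exact map_zero f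
  have hn : ∀ (n : ℕ) (x : ℝ), A (n * x) = n * A x := by
    intro n x
    have := map_nsmul f n x
    rw [nsmul_eq_mul, nsmul_eq_mul, hf, hf] at this
    exact this
  have hz : ∀ (n : ℤ), A n = n * A 1 := by
    intro n
    have := map_zsmul f n (1 : ℝ)
    rw [zsmul_eq_mul, zsmul_eq_mul, hf, hf, mul_one] at this
    exact this
  have hA1 : 0 ≤ A 1 := by rw [← h0]; exact hmono 0 1 zero_le_one
  have hb : ∀ n : ℕ, 0 < n → |A x - A 1 * x| * n ≤ A 1 := by
    intro n hn0
    have hnr : (0 : ℝ) < n := by exact_mod_cast hn0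
    have h1 : (⌊(n : ℝ) * x⌋ : ℝ) ≤ n * x := Int.floor_le _
    have h2 : (n : ℝ) * x ≤ (⌊(n : ℝ) * x⌋ + 1 : ℤ) := by
      push_cast
      exact (Int.lt_floor_add_one _).le
    have h3 := hmono _ _ h1
    have h4 := hmono _ _ h2
    rw [hz, hn] at h3
    rw [hz, hn] at h4
    push_cast at h4
    have h5 : |A x - A 1 * x| * n = |n * A x - A 1 * (n * x)| := by
      rw [show (n : ℝ) * A x - A 1 * (n * x) = (A x - A 1 * x) * n by ring, abs_mul,
        abs_of_pos hnr]
    rw [h5, abs_le]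
    push_cast at h2
    constructor
    · nlinarith
    · nlinarith
  by_contra hne
  have hpos : 0 < |A x - A 1 * x| := abs_pos.2 (sub_ne_zero.2 hne)
  obtain ⟨n, hn1⟩ := exists_nat_gt (A 1 / |A x - A 1 * x|)
  have hn2 : (0 : ℝ) < n := lt_of_le_of_lt (div_nonneg hA1 hpos.le) hn1
  have h6 := hb n (by exact_mod_cast hn2)
  rw [div_lt_iff₀ hpos] at hn1
  linarith

theorem main : Pool.Agent.W560.EW.S_POW := by
  intro F hF hmon hmid hdbl hcvx
  by_cases hz : ∃ t0 : ℝ, 0 < t0 ∧ F t0 = 0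
  · left
    obtain ⟨t0, ht0, hFt⟩ := hz
    intro t ht
    rcases le_or_gt t t0 with h | h
    · exact le_antisymm (hFt ▸ hmon t t0 ht h) (hF t)
    · have h1 := hcvx t (t / t0) ht ((one_lt_div ht0).2 h)
      have h2 : t / (t / t0) = t0 := by field_simp
      rw [h2, hFt, zero_mul] at h1
      exact pow_eq_zero_iff (two_ne_zero) |>.1 (le_antisymm h1 (sq_nonneg _))
  right
  push Not at hz
  have hFp : ∀ t, 0 < t → 0 < F t := fun t ht => lt_of_le_of_ne (hF t) (Ne.symm (hz t ht))
  obtain ⟨G, hG⟩ : ∃ G : ℝ → ℝ, ∀ s, G s = Real.log (F (Real.exp s)) := ⟨_, fun _ => rfl⟩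
  have hE : ∀ s, 0 < F (Real.exp s) := fun s => hFp _ (Real.exp_pos s)
  have hGm : ∀ s t, s ≤ t → G s ≤ G t := by
    intro s t h
    rw [hG, hG]
    exact Real.log_le_log (hE s) (hmon _ _ (Real.exp_pos s) (Real.exp_le_exp.2 h))
  have hG2' : ∀ s h, 0 < h → 2 * G s ≤ G (s - h) + G (s + h) := by
    intro s h hh
    have h1 := hcvx (Real.exp s) (Real.exp h) (Real.exp_pos s) (Real.one_lt_exp_iff.2 hh)
    rw [← Real.exp_sub, ← Real.exp_add] at h1
    have h2 := Real.log_le_log (pow_pos (hE s) 2) h1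
    rw [Real.log_pow, Real.log_mul (hE _).ne' (hE _).ne'] at h2
    rw [hG, hG, hG]
    exact_mod_cast h2
  have hG3 : ∀ s t (k : ℕ), 1 ≤ k →
      G s + G t ≤ 2 * G ((s + t) / 2 + Real.log (1 + 1 / (k : ℝ))) := by
    intro s t k hk
    have h1 := hmid (Real.exp s) (Real.exp t) (Real.exp_pos s) (Real.exp_pos t) k hk
    have hk0 : (0 : ℝ) < 1 + 1 / (k : ℝ) := by positivity
    have h2 : (1 + 1 / (k : ℝ)) * Real.sqrt (Real.exp s * Real.exp t) =
        Real.exp ((s + t) / 2 + Real.log (1 + 1 / (k : ℝ))) := by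
      rw [Real.exp_add, Real.exp_log hk0, ← Real.exp_add, mul_comm]
      congr 1
      rw [show Real.exp (s + t) = Real.exp ((s + t) / 2) ^ 2 by
        rw [← Real.exp_nat_mul]; congr 1; push_cast; ring]
      exact Real.sqrt_sq (Real.exp_pos _).le
    rw [h2] at h1
    have h3 := Real.log_le_log (mul_pos (hE s) (hE t)) h1
    rw [Real.log_pow, Real.log_mul (hE _).ne' (hE _).ne'] at h3
    rw [hG, hG, hG]
    exact_mod_cast h3
  -- right continuity
  have hR : ∀ (n : ℕ) (s h : ℝ), 0 < h → G (s + h) - G s ≤ (G (s + 2 ^ n * h) - G s) / 2 ^ n := by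
    intro n
    induction n with
    | zero => intro s h hh; simp
    | succ n ih =>
      intro s h hh
      have h1 := ih s h hh
      have h2 := hG2' (s + 2 ^ n * h) (2 ^ n * h) (by positivity)
      rw [show s + 2 ^ n * h - 2 ^ n * h = s by ring,
        show s + 2 ^ n * h + 2 ^ n * h = s + 2 ^ (n + 1) * h by ring] at h2
      have h3 : (0 : ℝ) < 2 ^ n := by positivity
      calc G (s + h) - G s ≤ (G (s + 2 ^ n * h) - G s) / 2 ^ n := h1
        _ ≤ ((G (s + 2 ^ (n + 1) * h) - G s) / 2) / 2 ^ n := by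
            apply div_le_div_of_nonneg_right _ h3.le
            linarith
        _ = (G (s + 2 ^ (n + 1) * h) - G s) / 2 ^ (n + 1) := by
            rw [div_div, show (2 : ℝ) ^ (n + 1) = 2 * 2 ^ n by ring]
  have hG4 : ∀ s t, G s + G t ≤ 2 * G ((s + t) / 2) := by
    intro s t
    obtain ⟨m, hm⟩ : ∃ m, m = (s + t) / 2 := ⟨_, rfl⟩
    rw [← hm]
    have hstep : ∀ n : ℕ, G s + G t ≤ 2 * G m + 2 * ((G (m + 1) - G m) / 2 ^ n) := by
      intro n
      have hk : ∃ k : ℕ, 1 ≤ k ∧ Real.log (1 + 1 / (k : ℝ)) ≤ 1 / 2 ^ n := by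
        refine ⟨2 ^ n, Nat.one_le_two_pow, ?_⟩
        have := Real.log_le_sub_one_of_pos (x := 1 + 1 / ((2 ^ n : ℕ) : ℝ)) (by positivity)
        push_cast at this ⊢
        linarith
      obtain ⟨k, hk1, hk2⟩ := hk
      have h1 := hG3 s t k hk1
      rw [← hm] at h1
      have hlog : 0 < Real.log (1 + 1 / (k : ℝ)) := by
        apply Real.log_pos
        have : (0 : ℝ) < k := by exact_mod_cast hk1
        have : 0 < 1 / (k : ℝ) := by positivity
        linarith
      have h2 := hR n m _ hlog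
      have h3 : G (m + 2 ^ n * Real.log (1 + 1 / (k : ℝ))) ≤ G (m + 1) := by
        apply hGm
        have h4 : (2 : ℝ) ^ n * Real.log (1 + 1 / (k : ℝ)) ≤ 2 ^ n * (1 / 2 ^ n) :=
          mul_le_mul_of_nonneg_left hk2 (by positivity)
        have h5 : (2 : ℝ) ^ n * (1 / 2 ^ n) = 1 := by field_simp
        linarith
      have h6 : (G (m + 2 ^ n * Real.log (1 + 1 / (k : ℝ))) - G m) / 2 ^ n ≤
          (G (m + 1) - G m) / 2 ^ n := by
        apply div_le_div_of_nonneg_right _ (by positivity)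
        linarith
      linarith
    by_contra hcon
    push Not at hcon
    obtain ⟨ε, hε⟩ : ∃ ε, ε = G s + G t - 2 * G m := ⟨_, rfl⟩
    have hε0 : 0 < ε := by rw [hε]; linarith
    have hd : 0 ≤ G (m + 1) - G m := by
      have := hGm m (m + 1) (by linarith)
      linarith
    obtain ⟨n, hn⟩ := pow_unbounded_of_one_lt (2 * (G (m + 1) - G m) / ε) (one_lt_two)
    have h1 := hstep n
    have h2 : (0 : ℝ) < 2 ^ n := by positivity
    rw [div_lt_iff₀ hε0] at hn
    have h3 : ε ≤ 2 * ((G (m + 1) - G m) / 2 ^ n) := by rw [hε]; linarith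
    have h4 : 2 * ((G (m + 1) - G m) / 2 ^ n) = 2 * (G (m + 1) - G m) / 2 ^ n := by ring
    rw [h4, le_div_iff₀ h2] at h3
    linarith
  have hG5 : ∀ s t, G s + G t = 2 * G ((s + t) / 2) := by
    intro s t
    apply le_antisymm (hG4 s t)
    rcases lt_trichotomy s t with h | h | h
    · have := hG2' ((s + t) / 2) ((t - s) / 2) (by linarith)
      rw [show (s + t) / 2 - (t - s) / 2 = s by ring,
        show (s + t) / 2 + (t - s) / 2 = t by ring] at this
      exact this
    · rw [h, show (t + t) / 2 = t by ring]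
      linarith
    · have := hG2' ((s + t) / 2) ((s - t) / 2) (by linarith)
      rw [show (s + t) / 2 - (s - t) / 2 = t by ring,
        show (s + t) / 2 + (s - t) / 2 = s by ring] at this
      linarith
  have hlin := additive_mono (fun s => G s - G 0) (by
    intro x y
    have h1 := hG5 x y
    have h2 := hG5 (x + y) 0
    rw [add_zero] at h2
    show G (x + y) - G 0 = (G x - G 0) + (G y - G 0)
    linarith) (by
    intro x y hxy
    have := hGm x y hxy
    show G x - G 0 ≤ G y - G 0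
    linarith)
  obtain ⟨α, hα⟩ : ∃ α, α = G 1 - G 0 := ⟨_, rfl⟩
  have hform : ∀ t : ℝ, 0 < t → F t = Real.exp (G 0) * t ^ α := by
    intro t ht
    have h1 : G (Real.log t) - G 0 = (G 1 - G 0) * Real.log t := hlin (Real.log t)
    rw [← hα] at h1
    have h2 : G (Real.log t) = Real.log (F t) := by rw [hG, Real.exp_log ht]
    have h3 : Real.log (F t) = G 0 + Real.log t * α := by
      rw [← h2]
      linarith
    rw [← Real.exp_log (hFp t ht), h3, Real.exp_add, Real.rpow_def_of_pos ht]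
  refine ⟨Real.exp (G 0), α, Real.exp_pos _, ?_, hform⟩
  by_contra hlt
  push Not at hlt
  have h1 := hdbl 1 one_pos
  rw [mul_one, hform 1 one_pos, hform 2 two_pos, Real.one_rpow, mul_one] at h1
  have h2 : (2 : ℝ) ^ α < 2 ^ (1 : ℝ) := Real.rpow_lt_rpow_of_exponent_lt one_lt_two hlt
  rw [Real.rpow_one] at h2
  have h3 := mul_lt_mul_of_pos_left h2 (Real.exp_pos (G 0))
  linarith

end Pool.Agent.W717.EW.POW
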